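import Mathlib
import Pool.Agent.Lib.MP_fd5214_co.Main

/-!
# MP_fd5214_co, Q1: a combinatorially psd-minimal polytope whose slack ideal is not binomial
-/

namespace Pool.Agent.Results.MP_fd5214_co.NotBinomial

open Pool.Agent.Lib.MP_fd5214_co

/-- There is an 8-polytope (with 20 vertices and 28 facets) that is combinatorially psd-minimal and
whose slack ideal is not binomial. -/
theorem result : ∃ P : Polytope 8 20 28, CombPsdMinimal P ∧ ¬ IsBinomialIdeal P.slackIdeal :=
  ⟨P0, P0_combPsdMinimal, P0_not_binomial⟩

end Pool.Agent.Results.MP_fd5214_co.NotBinomial
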